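import Pool.Agent.H474.MS.Stm

/-!
# Project MS (helper474): the statement `L1b`
-/

set_option autoImplicit false

open MeasureTheory Filter Topology Set

namespace Pool.Agent.H241.MS.L1b

open Pool.Agent.H474.MS

lemma int_h {c : ℝ} (hc : 0 < c) :
    ∫ t in Ioi c, 2 * t ^ (-3 : ℝ) = 1 / c ^ 2 := by
  rw [integral_const_mul, integral_Ioi_rpow_of_lt (by norm_num) hc]
  have e : (-3 : ℝ) + 1 = -2 := by norm_num
  rw [e, Real.rpow_neg hc.le]
  have e2 : c ^ (2 : ℝ) = c ^ 2 := by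
    rw [← Real.rpow_natCast]
    norm_num
  rw [e2]
  ring

lemma int_k {c : ℝ} (hc : 0 < c) (C : ℝ) :
    ∫ t in Ioi c, (2 * C) * t ^ (-2 : ℝ) = 2 * C / c := by
  rw [integral_const_mul, integral_Ioi_rpow_of_lt (by norm_num) hc]
  have e : (-2 : ℝ) + 1 = -1 := by norm_num
  rw [e, Real.rpow_neg_one]
  ring

lemma partial_le {ι : Type} {w g : ι → ℝ} (hD : Dat w g) (s : Finset ι) (t : ℝ) :
    ∑ i ∈ s, (if g i ≤ t then w i * g i ^ 2 else 0) ≤ AA w g t := by
  unfold AA
  have hsum : Summable fun i => if g i ≤ t then w i * g i ^ 2 else 0 := by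
    refine Summable.of_nonneg_of_le (f := fun i => w i * t ^ 2) (fun i => ?_) (fun i => ?_)
      (hD.ws.mul_right _)
    · split_ifs
      · exact mul_nonneg (hD.w0 i) (sq_nonneg _)
      · exact le_rfl
    · split_ifs with h
      · exact mul_le_mul_of_nonneg_left (pow_le_pow_left₀ (hD.g0 i) h 2) (hD.w0 i)
      · exact mul_nonneg (hD.w0 i) (sq_nonneg _)
  refine hsum.sum_le_tsum s fun i _ => ?_
  split_ifs
  · exact mul_nonneg (hD.w0 i) (sq_nonneg _)
  · exact le_rfl

theorem fin_le {ι : Type} {w g : ι → ℝ} (hD : Dat w g) {C : ℝ}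
    (hA : ∀ T : ℝ, 1 ≤ T → AA w g T ≤ C * T) {T : ℝ} (hT : 1 ≤ T) (s : Finset ι)
    (hs : ∀ i ∈ s, T < g i) : ∑ i ∈ s, w i ≤ 2 * C / T := by
  have hT0 : 0 < T := by linarith
  have hg : ∀ i ∈ s, 0 < g i := fun i hi => hT0.trans (hs i hi)
  have hint : ∀ c : ℝ, 0 < c → IntegrableOn (fun t : ℝ => 2 * t ^ (-3 : ℝ)) (Ioi c) :=
    fun c hc => (integrableOn_Ioi_rpow_of_lt (by norm_num) hc).const_mul 2
  have h1 : ∀ i ∈ s, w i = ∫ t in Ioi T, (w i * g i ^ 2) *
      (Ioi (g i)).indicator (fun t : ℝ => 2 * t ^ (-3 : ℝ)) t := by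
    intro i hi
    have hgi := hg i hi
    rw [integral_const_mul, setIntegral_indicator measurableSet_Ioi]
    have e : Ioi T ∩ Ioi (g i) = Ioi (g i) := by
      rw [Ioi_inter_Ioi]
      congr 1
      exact max_eq_right (hs i hi).le
    rw [e, int_h hgi]
    field_simp
  have hI : ∀ i ∈ s, Integrable (fun t : ℝ => (w i * g i ^ 2) *
      (Ioi (g i)).indicator (fun t : ℝ => 2 * t ^ (-3 : ℝ)) t) (volume.restrict (Ioi T)) := by
    intro i _
    refine Integrable.const_mul ?_ _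
    exact (hint T hT0).indicator measurableSet_Ioi
  rw [Finset.sum_congr rfl h1, ← integral_finsetSum s hI, ← int_k hT0 C]
  refine setIntegral_mono_on (integrable_finsetSum s hI)
    ((integrableOn_Ioi_rpow_of_lt (by norm_num) hT0).const_mul _) measurableSet_Ioi
    fun t ht => ?_
  have htT : T < t := ht
  have ht0 : 0 < t := hT0.trans htT
  have hh : 0 ≤ 2 * t ^ (-3 : ℝ) := by positivity
  have h2 : ∑ i ∈ s, (w i * g i ^ 2) * (Ioi (g i)).indicator (fun t : ℝ => 2 * t ^ (-3 : ℝ)) t ≤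
      ∑ i ∈ s, (if g i ≤ t then w i * g i ^ 2 else 0) * (2 * t ^ (-3 : ℝ)) := by
    refine Finset.sum_le_sum fun i _ => ?_
    by_cases h : t ∈ Ioi (g i)
    · have h3 : g i ≤ t := le_of_lt h
      rw [indicator_of_mem h, if_pos h3]
    · rw [indicator_of_notMem h, mul_zero]
      split_ifs
      · exact mul_nonneg (mul_nonneg (hD.w0 i) (sq_nonneg _)) hh
      · rw [zero_mul]
  refine h2.trans ?_
  rw [← Finset.sum_mul]
  have h3 : ∑ i ∈ s, (if g i ≤ t then w i * g i ^ 2 else 0) ≤ C * t :=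
    (partial_le hD s t).trans (hA t (by linarith))
  refine (mul_le_mul_of_nonneg_right h3 hh).trans (le_of_eq ?_)
  have e : t ^ (-2 : ℝ) = t * t ^ (-3 : ℝ) := by
    have e1 : t * t ^ (-3 : ℝ) = t ^ (1 : ℝ) * t ^ (-3 : ℝ) := by rw [Real.rpow_one]
    rw [e1, ← Real.rpow_add ht0]
    norm_num
  rw [e]
  ring

theorem t_L1b : Pool.Agent.H474.MS.S_L1b := by
  intro ι _ w g hD C hA T hT
  classical
  unfold RR
  have hsum : Summable fun i => if T < g i then w i else 0 := by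
    refine Summable.of_nonneg_of_le (f := w) (fun i => ?_) (fun i => ?_) hD.ws
    · split_ifs
      · exact hD.w0 i
      · exact le_rfl
    · split_ifs
      · exact le_rfl
      · exact hD.w0 i
  refine hsum.tsum_le_of_sum_le fun s => ?_
  rw [← Finset.sum_filter]
  exact fin_le hD hA hT _ fun i hi => (Finset.mem_filter.1 hi).2

end Pool.Agent.H241.MS.L1b
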